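import Mathlib
import Pool.Agent.helper68.AM.SpecX

/-!
Project sl: (AM), module XC: size of the Chebyshev numbers.
-/

set_option autoImplicit false

namespace AM

open Pool.Agent.helper72.Sq

theorem XC_rec (u t : ℝ) (hut : u * t = 1) (n : ℕ) :
    sn (u + t) (n + 1) = u * sn (u + t) n + t ^ n := by
  induction n with
  | zero => simp [sn]
  | succ n ih =>
    have h : sn (u + t) (n + 1 + 1) = (u + t) * sn (u + t) (n + 1) - sn (u + t) n := rfl
    rw [h]
    have h2 : t * sn (u + t) (n + 1) = sn (u + t) n + t ^ (n + 1) := by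
      rw [ih]
      calc t * (u * sn (u + t) n + t ^ n) = (u * t) * sn (u + t) n + t ^ (n + 1) := by ring
        _ = sn (u + t) n + t ^ (n + 1) := by rw [hut, one_mul]
    linear_combination h2

theorem XC_bd (u t : ℝ) (hu : 1 ≤ u) (ht : 0 < t) (ht1 : t ≤ 1) (hut : u * t = 1) (n : ℕ) :
    u ^ n ≤ sn (u + t) (n + 1) ∧ sn (u + t) (n + 1) ≤ (n + 1) * u ^ n := by
  induction n with
  | zero => simp [sn]
  | succ n ih =>
    obtain ⟨h1, h2⟩ := ih
    have hu0 : 0 < u := by linarith
    rw [XC_rec u t hut (n + 1)]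
    have htn : 0 < t ^ (n + 1) := by positivity
    have htn1 : t ^ (n + 1) ≤ 1 := pow_le_one₀ ht.le ht1
    have hun1 : 1 ≤ u ^ (n + 1) := one_le_pow₀ hu
    constructor
    · calc u ^ (n + 1) = u * u ^ n := by ring
        _ ≤ u * sn (u + t) (n + 1) := mul_le_mul_of_nonneg_left h1 hu0.le
        _ ≤ u * sn (u + t) (n + 1) + t ^ (n + 1) := by linarith
    · have h3 : u * sn (u + t) (n + 1) ≤ u * ((n + 1) * u ^ n) :=
        mul_le_mul_of_nonneg_left h2 hu0.le
      push_cast
      calc u * sn (u + t) (n + 1) + t ^ (n + 1) ≤ u * ((n + 1) * u ^ n) + u ^ (n + 1) := by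
            linarith
        _ = ((n : ℝ) + 1 + 1) * u ^ (n + 1) := by ring

theorem XC_mono (u t : ℝ) (hu : 1 ≤ u) (ht : 0 < t) (ht1 : t ≤ 1) (hut : u * t = 1) (n : ℕ) :
    sn (u + t) n ≤ sn (u + t) (n + 1) := by
  rw [XC_rec u t hut n]
  have htn : 0 < t ^ n := by positivity
  have h0 : 0 ≤ sn (u + t) n := by
    cases n with
    | zero => simp [sn]
    | succ n =>
      have := (XC_bd u t hu ht ht1 hut n).1
      have h2 : (0 : ℝ) ≤ u ^ n := by positivity
      linarith
  nlinarith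

theorem XC : XC_stmt := by
  intro x n hx hn
  obtain ⟨m, rfl⟩ : ∃ m, n = m + 1 := ⟨n - 1, by omega⟩
  set u : ℝ := Real.exp (len x / 2) with hu
  set t : ℝ := Real.exp (-(len x / 2)) with ht
  have hl0 : 0 ≤ len x := len_nonneg hx
  have hx' : x = u + t := by
    have h := cosh_half_len hx
    rw [Real.cosh_eq] at h
    rw [hu, ht]
    linarith
  have hu1 : 1 ≤ u := Real.one_le_exp (by linarith)
  have ht0 : 0 < t := Real.exp_pos _
  have ht1 : t ≤ 1 := Real.exp_le_one_iff.2 (by linarith)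
  have hut : u * t = 1 := by
    rw [hu, ht, ← Real.exp_add]
    simp
  have hlogu : Real.log u = len x / 2 := Real.log_exp _
  obtain ⟨h1, h2⟩ := XC_bd u t hu1 ht0 ht1 hut m
  have hm := XC_mono u t hu1 ht0 ht1 hut (m + 1)
  have hm0 := XC_mono u t hu1 ht0 ht1 hut m
  rw [← hx'] at h1 h2 hm hm0
  have hum : 1 ≤ u ^ m := one_le_pow₀ hu1
  have hs1 : 1 ≤ sn x (m + 1) := hum.trans h1
  have hs0 : 0 < sn x (m + 1) := by linarith
  refine ⟨hs1, ?_, hm, ?_⟩
  · have hupos : 0 < u := by linarith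
    have h3 : (m : ℝ) * Real.log u ≤ Real.log (sn x (m + 1)) := by
      rw [← Real.log_pow]
      exact Real.log_le_log (by positivity) h1
    have h4 : Real.log (sn x (m + 1)) ≤ Real.log ((m : ℝ) + 1) + (m : ℝ) * Real.log u := by
      rw [← Real.log_pow, ← Real.log_mul (by positivity) (by positivity)]
      exact Real.log_le_log hs0 h2
    have h5 : 0 ≤ Real.log ((m : ℝ) + 1) := Real.log_nonneg (by
      have : (0 : ℝ) ≤ m := Nat.cast_nonneg m
      linarith)
    rw [hlogu] at h3 h4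
    push_cast
    rw [abs_le]
    constructor <;> linarith
  · have h6 : sn x (m + 1 + 1) = x * sn x (m + 1) - sn x m := rfl
    linarith

end AM
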