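import Mathlib
import Pool.Agent.helper68.AM.Spec

/-!
Project sl: (AM), module NI: counting `d` with `X / d - c` close to an integer.
-/

set_option autoImplicit false

namespace AM

open Pool.Agent.helper72.Sq Finset

/-- a finite set of naturals of diameter at most `L` has at most `L + 1` elements -/
theorem NI_diam (T : Finset ℕ) (L : ℝ) (hL : 0 ≤ L)
    (h : ∀ a ∈ T, ∀ b ∈ T, a ≤ b → (b : ℝ) - a ≤ L) : (T.card : ℝ) ≤ L + 1 := by
  rcases T.eq_empty_or_nonempty with hT | hT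
  · rw [hT, Finset.card_empty, Nat.cast_zero]
    linarith
  · have hmin := T.min'_mem hT
    have hmax := T.max'_mem hT
    have hle : T.min' hT ≤ T.max' hT := T.min'_le _ hmax
    have h1 : T ⊆ Icc (T.min' hT) (T.max' hT) := by
      intro a ha
      rw [Finset.mem_Icc]
      exact ⟨T.min'_le _ ha, T.le_max' _ ha⟩
    have h2 := Finset.card_le_card h1
    rw [Nat.card_Icc] at h2
    have h3 := h _ hmin _ hmax hle
    have h4 : (T.card : ℝ) ≤ ((T.max' hT + 1 - T.min' hT : ℕ) : ℝ) := by exact_mod_cast h2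
    rw [Nat.cast_sub (by omega)] at h4
    push_cast at h4
    linarith

/-- the number of integers in a real interval -/
theorem NI_ints (a b : ℝ) (hab : 0 ≤ b - a + 1) :
    ((Icc ⌈a⌉ ⌊b⌋).card : ℝ) ≤ b - a + 1 := by
  rw [Int.card_Icc]
  rcases le_or_gt 0 (⌊b⌋ + 1 - ⌈a⌉) with h | h
  · have h1 : (((⌊b⌋ + 1 - ⌈a⌉).toNat : ℕ) : ℤ) = ⌊b⌋ + 1 - ⌈a⌉ := Int.toNat_of_nonneg h
    have h2 : (((⌊b⌋ + 1 - ⌈a⌉).toNat : ℕ) : ℝ) = (⌊b⌋ : ℝ) + 1 - (⌈a⌉ : ℝ) := by
      exact_mod_cast h1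
    rw [h2]
    have := Int.floor_le b
    have := Int.le_ceil a
    linarith
  · rw [Int.toNat_of_nonpos h.le]
    simpa using hab

theorem NI : NI_stmt := by
  intro X D c δ N1 N2 hD hDX hδ0 hδ1 hN1 hN2
  classical
  set S : Finset ℕ := (Ioc N1 N2).filter (fun d : ℕ => nrm (X / d - c) ≤ δ) with hS
  have hD0 : 0 < D := by linarith
  have hX0 : 0 < X := by linarith
  have hmem : ∀ d ∈ S, D ≤ (d : ℝ) ∧ (d : ℝ) ≤ 2 * D ∧ |X / d - c - round (X / d - c)| ≤ δ := by
    intro d hd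
    rw [hS, Finset.mem_filter, Finset.mem_Ioc] at hd
    obtain ⟨⟨h1, h2⟩, h3⟩ := hd
    have h1' : (N1 : ℝ) + 1 ≤ d := by exact_mod_cast h1
    have h2' : (d : ℝ) ≤ N2 := by exact_mod_cast h2
    exact ⟨by linarith, by linarith, h3⟩
  -- the fibres
  have hfib : ∀ k ∈ S.image (fun d : ℕ => round (X / d - c)),
      (((S.filter (fun d : ℕ => round (X / d - c) = k)).card : ℕ) : ℝ) ≤ 8 * δ * D ^ 2 / X + 1 := by
    intro k _
    apply NI_diam _ _ (by positivity)
    intro a ha b hb hab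
    rw [Finset.mem_filter] at ha hb
    obtain ⟨haS, hak⟩ := ha
    obtain ⟨hbS, hbk⟩ := hb
    obtain ⟨ha1, ha2, ha3⟩ := hmem a haS
    obtain ⟨hb1, hb2, hb3⟩ := hmem b hbS
    rw [hak] at ha3
    rw [hbk] at hb3
    have ha0 : (0 : ℝ) < a := by linarith
    have hb0 : (0 : ℝ) < b := by linarith
    rw [abs_le] at ha3 hb3
    have h1 : X / a - X / b ≤ 2 * δ := by linarith
    have h2 : X / a - X / b = X * (b - a) / (a * b) := by
      field_simp
    rw [h2, div_le_iff₀ (by positivity)] at h1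
    have h3 : (a : ℝ) * b ≤ (2 * D) * (2 * D) := by
      apply mul_le_mul ha2 hb2 hb0.le (by linarith)
    rw [le_div_iff₀ hX0]
    calc ((b : ℝ) - a) * X = X * (b - a) := by ring
      _ ≤ 2 * δ * (a * b) := h1
      _ ≤ 2 * δ * ((2 * D) * (2 * D)) := by
          apply mul_le_mul_of_nonneg_left h3 (by linarith)
      _ = 8 * δ * D ^ 2 := by ring
  -- the image
  have himg : ((S.image (fun d : ℕ => round (X / d - c))).card : ℝ) ≤ X / (2 * D) + 2 := by
    have hsub : S.image (fun d : ℕ => round (X / d - c)) ⊆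
        Icc ⌈X / (2 * D) - c - 1 / 2⌉ ⌊X / D - c + 1 / 2⌋ := by
      intro k hk
      rw [Finset.mem_image] at hk
      obtain ⟨d, hd, rfl⟩ := hk
      obtain ⟨h1, h2, h3⟩ := hmem d hd
      have hd0 : (0 : ℝ) < d := by linarith
      rw [abs_le] at h3
      have h4 : X / (2 * D) ≤ X / d := div_le_div_of_nonneg_left hX0.le hd0 h2
      have h5 : X / d ≤ X / D := div_le_div_of_nonneg_left hX0.le hD0 h1
      rw [Finset.mem_Icc]
      constructor
      · rw [Int.ceil_le]
        linarith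
      · rw [Int.le_floor]
        linarith
    have h1 := Finset.card_le_card hsub
    have h2 : ((S.image (fun d : ℕ => round (X / d - c))).card : ℝ) ≤
        ((Icc ⌈X / (2 * D) - c - 1 / 2⌉ ⌊X / D - c + 1 / 2⌋).card : ℝ) := by exact_mod_cast h1
    have h6 : X / (2 * D) = X / D / 2 := by
      field_simp
    have h7 : 0 ≤ X / D := by positivity
    have h3 := NI_ints (X / (2 * D) - c - 1 / 2) (X / D - c + 1 / 2) (by rw [h6]; linarith)
    calc ((S.image (fun d : ℕ => round (X / d - c))).card : ℝ)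
        ≤ ((Icc ⌈X / (2 * D) - c - 1 / 2⌉ ⌊X / D - c + 1 / 2⌋).card : ℝ) := h2
      _ ≤ (X / D - c + 1 / 2) - (X / (2 * D) - c - 1 / 2) + 1 := h3
      _ = X / (2 * D) + 2 := by rw [h6]; ring
  have hcard : (S.card : ℝ) ≤ (X / (2 * D) + 2) * (8 * δ * D ^ 2 / X + 1) := by
    have h1 := Finset.card_eq_sum_card_image (fun d : ℕ => round (X / d - c)) S
    have h2 : (S.card : ℝ) = ∑ k ∈ S.image (fun d : ℕ => round (X / d - c)),
        (((S.filter (fun d : ℕ => round (X / d - c) = k)).card : ℕ) : ℝ) := by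
      exact_mod_cast h1
    rw [h2]
    calc ∑ k ∈ S.image (fun d : ℕ => round (X / d - c)),
        (((S.filter (fun d : ℕ => round (X / d - c) = k)).card : ℕ) : ℝ)
        ≤ ∑ k ∈ S.image (fun d : ℕ => round (X / d - c)), (8 * δ * D ^ 2 / X + 1) :=
          Finset.sum_le_sum hfib
      _ = ((S.image (fun d : ℕ => round (X / d - c))).card : ℝ) * (8 * δ * D ^ 2 / X + 1) := by
          rw [Finset.sum_const, nsmul_eq_mul]
      _ ≤ (X / (2 * D) + 2) * (8 * δ * D ^ 2 / X + 1) := by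
          apply mul_le_mul_of_nonneg_right himg (by positivity)
  have h10 : (X / (2 * D) + 2) * (8 * δ * D ^ 2 / X + 1) =
      4 * δ * D + X / D / 2 + 16 * δ * (D ^ 2 / X) + 2 := by
    field_simp
    ring
  have h11 : D ^ 2 / X ≤ D := by
    rw [div_le_iff₀ hX0, sq]
    exact mul_le_mul_of_nonneg_left hDX hD0.le
  have h12 : 16 * δ * (D ^ 2 / X) ≤ 16 * δ * D := mul_le_mul_of_nonneg_left h11 (by linarith)
  have h13 : 0 ≤ X / D := by positivity
  calc (S.card : ℝ) ≤ (X / (2 * D) + 2) * (8 * δ * D ^ 2 / X + 1) := hcard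
    _ = 4 * δ * D + X / D / 2 + 16 * δ * (D ^ 2 / X) + 2 := h10
    _ ≤ 20 * δ * D + X / D + 3 := by linarith

end AM
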