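import Mathlib
import Pool.Agent.helper68.AM.Spec

/-!
Project sl: (AM), module SV: the sieve bound, from HR and RF.
-/

set_option autoImplicit false

namespace AM

open Pool.Agent.helper72.Sq Finset

theorem SV (hHR : HR_stmt) (hRF : RF_stmt) : SV_stmt := by
  obtain ⟨C, hC, hHR⟩ := hHR
  refine ⟨4 * C, by positivity, fun P0 Q0 x hP hQ hQx => ?_⟩
  have hx2 : 2 ≤ x := hQ.trans hQx
  have h1 := hHR (Wp P0 Q0) x hx2
  have h2 := hRF P0 Q0 x hP hQ (by omega)
  set A : ℝ := (((Icc 1 x).filter (fun n => ∀ p ∈ Wp P0 Q0, ¬ p ∣ n)).card : ℝ) with hA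
  set S : ℝ := ∑ m ∈ (Icc 1 x).filter (fun n => ∀ p ∈ Wp P0 Q0, ¬ p ∣ n), 1 / (m : ℝ) with hS
  have hQ1 : (2 : ℝ) ≤ Q0 := by exact_mod_cast hQ
  have hQx' : (Q0 : ℝ) ≤ x := by exact_mod_cast hQx
  have hlQ : 0 < Real.log Q0 := Real.log_pos (by linarith)
  have hlx : 0 < Real.log x := Real.log_pos (by linarith)
  have hlQx : Real.log Q0 ≤ Real.log x := Real.log_le_log (by linarith) hQx'
  have hl2 : (1 : ℝ) / 2 ≤ Real.log 2 := by
    have := Real.log_two_gt_d9
    linarith
  have hlx2 : Real.log 2 ≤ Real.log x := Real.log_le_log (by norm_num) (by linarith)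
  have hP0 : (0 : ℝ) ≤ P0 := Nat.cast_nonneg _
  have h3 : (P0 : ℝ) * (1 + Real.log x + Real.log Q0) ≤ P0 * (4 * Real.log x) := by
    apply mul_le_mul_of_nonneg_left _ hP0
    linarith
  have h4 : A * Real.log x * Real.log Q0 ≤ C * x * (P0 * (4 * Real.log x)) := by
    calc A * Real.log x * Real.log Q0 ≤ C * x * S * Real.log Q0 :=
          mul_le_mul_of_nonneg_right h1 hlQ.le
      _ = C * x * (S * Real.log Q0) := by ring
      _ ≤ C * x * (P0 * (4 * Real.log x)) :=
          mul_le_mul_of_nonneg_left (h2.trans h3) (by positivity)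
  have h5 : A * Real.log Q0 ≤ 4 * C * x * P0 := by
    have h6 : (A * Real.log Q0) * Real.log x ≤ (4 * C * x * P0) * Real.log x := by
      calc (A * Real.log Q0) * Real.log x = A * Real.log x * Real.log Q0 := by ring
        _ ≤ C * x * (P0 * (4 * Real.log x)) := h4
        _ = (4 * C * x * P0) * Real.log x := by ring
    exact le_of_mul_le_mul_right h6 hlx
  rw [le_div_iff₀ hlQ]
  exact h5

end AM
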